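import Pool.Agent.W651.HI.Defs

set_option autoImplicit false

namespace Pool.Agent.W160.HI.Bump

open Set Topology Metric

theorem main : Pool.Agent.W651.HI.S_BUMP := by
  intro L _ _ K G p q hK hKc hp hq hpq hG hpG
  obtain ⟨r₀, hr₀, hr₀G⟩ := Metric.isOpen_iff.1 hG p hpG
  have hd : 0 < dist p q := dist_pos.2 hpq
  obtain ⟨r, hr, hrG, hrq⟩ : ∃ r : ℝ, 0 < r ∧ closedBall p r ⊆ G ∧ r < dist p q := by
    refine ⟨min (r₀/2) (dist p q / 2), by positivity, ?_, ?_⟩
    · refine Subset.trans (closedBall_subset_ball ?_) hr₀G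
      calc min (r₀/2) (dist p q / 2) ≤ r₀/2 := min_le_left _ _
        _ < r₀ := by linarith
    · calc min (r₀/2) (dist p q / 2) ≤ dist p q/2 := min_le_right _ _
        _ < dist p q := by linarith
  set F : Set L := K ∩ closedBall p r with hF
  have hFc : IsClosed F := hK.inter isClosed_closedBall
  have hpF : p ∈ F := ⟨hp, mem_closedBall_self hr.le⟩
  set A := connectedComponentIn F p with hA
  have hAF : A ⊆ F := connectedComponentIn_subset F p
  have hAp : IsPreconnected A := isPreconnected_connectedComponentIn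
  have hpA : p ∈ A := mem_connectedComponentIn hpF
  have hAc : IsClosed A := by
    have h1 : closure A ⊆ A := by
      apply IsPreconnected.subset_connectedComponentIn hAp.closure (subset_closure hpA)
      exact closure_minimal hAF hFc
    exact isClosed_of_closure_subset h1
  refine ⟨A, hAc, hAp, hpA, fun x hx => (hAF hx).1, fun x hx => hrG (hAF hx).2, ?_⟩
  intro hAe
  -- the component is a point
  haveI : CompactSpace F := isCompact_iff_compactSpace.1 hFc.isCompact
  have hcc : connectedComponent (⟨p, hpF⟩ : F) = {⟨p, hpF⟩} := by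
    have h2 : A = ((↑) : F → L) '' connectedComponent (⟨p, hpF⟩ : F) := by
      rw [hA, connectedComponentIn_eq_image hpF]
    apply Set.eq_singleton_iff_unique_mem.2
    refine ⟨mem_connectedComponent, ?_⟩
    intro y hy
    have : (y : L) ∈ A := by rw [h2]; exact ⟨y, hy, rfl⟩
    rw [hAe] at this
    exact Subtype.ext this
  rw [connectedComponent_eq_iInter_isClopen] at hcc
  have hdir : Directed (fun a b : Set F => a ⊇ b)
      (fun s : {s : Set F // IsClopen s ∧ (⟨p, hpF⟩ : F) ∈ s} => (s : Set F)) := by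
    intro a b
    exact ⟨⟨a.1 ∩ b.1, a.2.1.inter b.2.1, a.2.2, b.2.2⟩, inter_subset_left, inter_subset_right⟩
  haveI : Nonempty {s : Set F // IsClopen s ∧ (⟨p, hpF⟩ : F) ∈ s} :=
    ⟨⟨univ, isClopen_univ, mem_univ _⟩⟩
  obtain ⟨⟨s, hs, hps⟩, hsub⟩ := exists_subset_nhds_of_compactSpace hdir
    (fun s => s.2.1.isClosed) (U := {y : F | (y : L) ∈ ball p r}) (by
      intro y hy
      rw [hcc] at hy
      have hy' : y = ⟨p, hpF⟩ := hy
      rw [hy']
      exact (isOpen_ball.preimage continuous_subtype_val).mem_nhds (mem_ball_self hr))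
  obtain ⟨W, hW, hWs⟩ := isOpen_induced_iff.1 hs.isOpen
  set V : Set L := ((↑) : F → L) '' s with hV
  have hVc : IsClosed V := (hs.isClosed.isCompact.image continuous_subtype_val).isClosed
  have hsub' : ∀ y : F, y ∈ s → (y : L) ∈ ball p r := fun y hy => hsub hy
  have key : ∀ x ∈ K, x ∈ W ∩ ball p r → x ∈ V := by
    intro x hx hxW
    have hxF : x ∈ F := ⟨hx, ball_subset_closedBall hxW.2⟩
    refine ⟨⟨x, hxF⟩, ?_, rfl⟩
    rw [← hWs]
    exact hxW.1
  have key2 : ∀ x ∈ V, x ∈ W ∩ ball p r := by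
    rintro x ⟨y, hy, rfl⟩
    refine ⟨?_, hsub' y hy⟩
    rw [← hWs] at hy
    exact hy
  have hpV : p ∈ V := ⟨⟨p, hpF⟩, hps, rfl⟩
  have hqV : q ∉ V := by
    intro h
    have := (key2 q h).2
    rw [mem_ball, dist_comm] at this
    linarith
  obtain ⟨x, hx, hx1, hx2⟩ := hKc (W ∩ ball p r) Vᶜ (hW.inter isOpen_ball) hVc.isOpen_compl
    (by
      intro x hx
      by_cases h : x ∈ V
      · exact Or.inl (key2 x h)
      · exact Or.inr h)
    ⟨p, hp, key2 p hpV⟩ ⟨q, hq, hqV⟩
  exact hx2 (key x hx hx1)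

end Pool.Agent.W160.HI.Bump
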