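import Pool.Agent.W651.HI.Defs

set_option autoImplicit false

namespace Pool.Agent.W160.HI.Crook

open Set Topology Metric

theorem main : Pool.Agent.W651.HI.S_CROOK := by
  intro Y _ _ U V O₁ P₁ O₂ P₂ hU hV hUV hO₁ hP₁ hO₂ hP₂ h1 h2 hP
  obtain ⟨f, hf0, hf1, hf01⟩ := exists_continuous_zero_one_of_isClosed
    (isClosed_closure (s := U)) (isClosed_closure (s := V)) hUV
  have hd1 : Disjoint (P₁ᶜ) (closure O₁) := by
    rw [Set.disjoint_left]; intro x hx hx'; exact hx (h1 hx')
  have hd2 : Disjoint (P₂ᶜ) (closure O₂) := by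
    rw [Set.disjoint_left]; intro x hx hx'; exact hx (h2 hx')
  obtain ⟨g, hg0, hg1, hg01⟩ := exists_continuous_zero_one_of_isClosed
    hP₁.isClosed_compl (isClosed_closure (s := O₁)) hd1
  obtain ⟨k, hk0, hk1, hk01⟩ := exists_continuous_zero_one_of_isClosed
    hP₂.isClosed_compl (isClosed_closure (s := O₂)) hd2
  set s : Y → ℝ := fun y => 1/2 - g y / 2 + k y / 2 with hs
  have hsc : Continuous s := by
    rw [hs]; fun_prop
  have hfc : Continuous (fun y => f y) := f.continuous
  have hs1 : ∀ y ∈ closure O₁, s y = 0 := by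
    intro y hy
    have a : g y = 1 := hg1 hy
    have b : k y = 0 := by
      apply hk0
      intro hy'
      exact Set.disjoint_left.1 hP (h1 hy) hy'
    simp only [hs, a, b]; norm_num
  have hs2 : ∀ y ∈ closure O₂, s y = 1 := by
    intro y hy
    have a : k y = 1 := hk1 hy
    have b : g y = 0 := by
      apply hg0
      intro hy'
      exact Set.disjoint_left.1 hP hy' (h2 hy)
    simp only [hs, a, b]; norm_num
  have hs3 : ∀ y, s y < 1/2 → y ∈ P₁ := by
    intro y hy
    by_contra hc
    have a : g y = 0 := hg0 hc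
    have b := (hk01 y).1
    simp only [hs, a] at hy
    linarith
  have hs4 : ∀ y, 1/2 < s y → y ∈ P₂ := by
    intro y hy
    by_contra hc
    have a : k y = 0 := hk0 hc
    have b := (hg01 y).1
    simp only [hs, a] at hy
    linarith
  -- the sets
  set U' : Set Y := {y | f y < 1/7} ∪ {y | 7/8 < s y ∧ f y < 5/7} ∪
    {y | 1/4 < s y ∧ 4/7 < f y ∧ f y < 5/7} with hU'
  set V' : Set Y := {y | 6/7 < f y} ∪ {y | s y < 1/8 ∧ 2/7 < f y} ∪
    {y | s y < 3/4 ∧ 2/7 < f y ∧ f y < 3/7} with hV'
  have hcU : closure U' ⊆ {y | f y ≤ 1/7} ∪ {y | 7/8 ≤ s y ∧ f y ≤ 5/7} ∪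
    {y | 1/4 ≤ s y ∧ 4/7 ≤ f y ∧ f y ≤ 5/7} := by
    apply closure_minimal
    · rintro y ((h | h) | h)
      · have h' : f y < 1/7 := h
        exact Or.inl (Or.inl (show f y ≤ 1/7 from h'.le))
      · exact Or.inl (Or.inr ⟨h.1.le, h.2.le⟩)
      · exact Or.inr ⟨h.1.le, h.2.1.le, h.2.2.le⟩
    · refine ((isClosed_le hfc continuous_const).union
        ((isClosed_le continuous_const hsc).inter (isClosed_le hfc continuous_const))).union
        ((isClosed_le continuous_const hsc).inter
          ((isClosed_le continuous_const hfc).inter (isClosed_le hfc continuous_const)))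
  have hcV : closure V' ⊆ {y | 6/7 ≤ f y} ∪ {y | s y ≤ 1/8 ∧ 2/7 ≤ f y} ∪
    {y | s y ≤ 3/4 ∧ 2/7 ≤ f y ∧ f y ≤ 3/7} := by
    apply closure_minimal
    · rintro y ((h | h) | h)
      · have h' : 6/7 < f y := h
        exact Or.inl (Or.inl (show 6/7 ≤ f y from h'.le))
      · exact Or.inl (Or.inr ⟨h.1.le, h.2.le⟩)
      · exact Or.inr ⟨h.1.le, h.2.1.le, h.2.2.le⟩
    · refine ((isClosed_le continuous_const hfc).union
        ((isClosed_le hsc continuous_const).inter (isClosed_le continuous_const hfc))).union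
        ((isClosed_le hsc continuous_const).inter
          ((isClosed_le continuous_const hfc).inter (isClosed_le hfc continuous_const)))
  refine ⟨U', V', {y | f y ≤ 5/14}, {y | 5/14 ≤ f y ∧ f y ≤ 9/14}, {y | 9/14 ≤ f y},
    ?_, ?_, ?_, ?_, ?_, ?_, ?_, ?_, ?_, ?_, ?_, ?_, ?_, ?_⟩
  · exact ((isOpen_lt hfc continuous_const).union
        ((isOpen_lt continuous_const hsc).inter (isOpen_lt hfc continuous_const))).union
        ((isOpen_lt continuous_const hsc).inter
          ((isOpen_lt continuous_const hfc).inter (isOpen_lt hfc continuous_const)))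
  · exact ((isOpen_lt continuous_const hfc).union
        ((isOpen_lt hsc continuous_const).inter (isOpen_lt continuous_const hfc))).union
        ((isOpen_lt hsc continuous_const).inter
          ((isOpen_lt continuous_const hfc).inter (isOpen_lt hfc continuous_const)))
  · intro y hy
    have : f y = 0 := hf0 (subset_closure hy)
    refine Or.inl (Or.inl ?_)
    show f y < 1/7
    rw [this]; norm_num
  · intro y hy
    have : f y = 1 := hf1 (subset_closure hy)
    refine Or.inl (Or.inl ?_)
    show 6/7 < f y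
    rw [this]; norm_num
  · rw [Set.disjoint_left]
    intro y hy hy'
    rcases hcU hy with (h | ⟨h, h'⟩) | ⟨h, h', h''⟩ <;>
    rcases hcV hy' with (l | ⟨l, l'⟩) | ⟨l, l', l''⟩ <;>
    (try replace h : f y ≤ 1/7 := h) <;> (try replace l : 6/7 ≤ f y := l) <;> linarith
  · exact isClosed_le hfc continuous_const
  · exact (isClosed_le continuous_const hfc).inter (isClosed_le hfc continuous_const)
  · exact isClosed_le continuous_const hfc
  · rw [Set.disjoint_left]
    intro y hy hy'
    simp only [Set.mem_ofPred_eq] at hy hy'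
    linarith
  · intro y _
    rcases le_total (f y) (5/14) with h | h
    · exact Or.inl (Or.inl h)
    · rcases le_total (f y) (9/14) with h' | h'
      · exact Or.inl (Or.inr ⟨h, h'⟩)
      · exact Or.inr h'
  · rintro y ⟨hy, hy'⟩
    have := hs1 y hy
    show f y ≤ 5/14
    by_contra hc
    push Not at hc
    apply hy'
    refine Or.inr (Or.inl (Or.inr ⟨?_, ?_⟩))
    · rw [this]; norm_num
    · linarith
  · rintro y ⟨hy, hy'⟩
    have := hs2 y hy
    show 9/14 ≤ f y
    by_contra hc
    push Not at hc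
    apply hy'
    refine Or.inl (Or.inl (Or.inr ⟨?_, ?_⟩))
    · rw [this]; norm_num
    · linarith
  · rintro y ⟨⟨hy, hy1⟩, hy'⟩
    simp only [Set.mem_ofPred_eq] at hy hy1
    apply hs4
    by_contra hc
    push Not at hc
    apply hy'
    refine Or.inr (Or.inr ⟨?_, ?_, ?_⟩) <;> linarith [hy1.1]
  · rintro y ⟨⟨hy, hy1⟩, hy'⟩
    simp only [Set.mem_ofPred_eq] at hy hy1
    apply hs3
    by_contra hc
    push Not at hc
    apply hy'
    refine Or.inl (Or.inr ⟨?_, ?_, ?_⟩) <;> linarith [hy.2]

end Pool.Agent.W160.HI.Crook
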